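import Pool.Agent.helper43.KG.Spec

set_option autoImplicit false

/-! # Row kg:WVA (MP_cef0b4_gt) -/

namespace Pool.Agent.helper43.KG

open Finset MeasureTheory ProbabilityTheory

theorem WVA_mean {ι κ : Type} [DecidableEq ι] (ht : TRI) (G : Finset ι) (s : ι → κ → ℝ) (x : ℝ)
    (hs : ∀ i j, s i j = 1 ∨ s i j = -1) (j : κ) :
    EE G (fun _ => 0) (fun U => Real.cos (x * ∑ i ∈ G, s i j * sg U i)) =
      Real.cos x ^ G.card := by
  have h := (ht ι G (fun i => x * s i j) 0).1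
  rw [Real.cos_zero, one_mul] at h
  have h1 : ∏ i ∈ G, Real.cos (x * s i j) = Real.cos x ^ G.card := by
    rw [Finset.prod_eq_pow_card]
    intro i _
    rcases hs i j with h2 | h2
    · rw [h2, mul_one]
    · rw [h2, mul_neg, mul_one, Real.cos_neg]
  rw [h1] at h
  rw [← h]
  refine EE_congr fun U _ => ?_
  rw [zero_add, Finset.mul_sum]
  congr 1
  exact Finset.sum_congr rfl fun i _ => by ring

theorem t_wva (ht : TRI) (hc : COV) (hr : RHO) : WVA := by
  intro ι κ _ G J s M ω hs hM hG hω hω4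
  set x : ℝ := 2 * ω / Real.sqrt G.card with hx
  set m : ℝ := Real.cos x ^ G.card with hm
  have hmean := WVA_mean ht G s x hs
  have hcosh : 0 ≤ Real.cosh (8 * ω ^ 2) - 1 := by
    have := Real.one_le_cosh (8 * ω ^ 2)
    linarith
  have hN : (0 : ℝ) < G.card := by exact_mod_cast hG
  -- expand the square
  have e1 : EE G (fun _ => 0) (fun U => (∑ j ∈ J, Real.cos (x * ∑ i ∈ G, s i j * sg U i) -
      J.card * m) ^ 2) =
      ∑ j ∈ J, ∑ k ∈ J, (EE G (fun _ => 0) (fun U => Real.cos (x * ∑ i ∈ G, s i j * sg U i) *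
        Real.cos (x * ∑ i ∈ G, s i k * sg U i)) - m ^ 2) := by
    have e2 : ∀ U : Finset ι, (∑ j ∈ J, Real.cos (x * ∑ i ∈ G, s i j * sg U i) -
        J.card * m) ^ 2 = ∑ j ∈ J, ∑ k ∈ J, (Real.cos (x * ∑ i ∈ G, s i j * sg U i) - m) *
          (Real.cos (x * ∑ i ∈ G, s i k * sg U i) - m) := by
      intro U
      rw [← Finset.sum_mul_sum, sq]
      have : ∑ j ∈ J, Real.cos (x * ∑ i ∈ G, s i j * sg U i) - J.card * m =
          ∑ j ∈ J, (Real.cos (x * ∑ i ∈ G, s i j * sg U i) - m) := by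
        rw [Finset.sum_sub_distrib, Finset.sum_const, nsmul_eq_mul]
      rw [this]
    rw [EE_congr (fun U _ => e2 U), EE_sum]
    refine Finset.sum_congr rfl fun j _ => ?_
    rw [EE_sum]
    refine Finset.sum_congr rfl fun k _ => ?_
    have e3 : ∀ U : Finset ι, (Real.cos (x * ∑ i ∈ G, s i j * sg U i) - m) *
          (Real.cos (x * ∑ i ∈ G, s i k * sg U i) - m) =
        (Real.cos (x * ∑ i ∈ G, s i j * sg U i) * Real.cos (x * ∑ i ∈ G, s i k * sg U i) +
          m ^ 2) - (m * Real.cos (x * ∑ i ∈ G, s i j * sg U i) +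
          m * Real.cos (x * ∑ i ∈ G, s i k * sg U i)) := by
      intro U; ring
    rw [EE_congr (fun U _ => e3 U), EE_sub, EE_add, EE_add, EE_mul, EE_mul, EE_const, hmean j,
      hmean k, ← hm]
    ring
  rw [e1]
  have h2 : ∀ j ∈ J, ∀ k ∈ J, EE G (fun _ => 0) (fun U =>
        Real.cos (x * ∑ i ∈ G, s i j * sg U i) *
        Real.cos (x * ∑ i ∈ G, s i k * sg U i)) - m ^ 2 ≤
      (Real.cosh (8 * ω ^ 2) - 1) / (G.card : ℝ) ^ 2 * (∑ i ∈ G, s i j * s i k) ^ 2 := by
    intro j _ k _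
    have h := hc ι G (fun i => s i j) (fun i => s i k) ω (fun i => hs i j) (fun i => hs i k) hG hω hω4
    rw [← hx, ← hm] at h
    refine h.trans (le_of_eq ?_)
    rw [div_pow]
    field_simp
  refine (Finset.sum_le_sum fun j hj => Finset.sum_le_sum fun k hk => h2 j hj k hk).trans ?_
  simp_rw [← Finset.mul_sum]
  have h3 := hr ι κ G J s M hs hM
  calc (Real.cosh (8 * ω ^ 2) - 1) / (G.card : ℝ) ^ 2 *
        ∑ j ∈ J, ∑ k ∈ J, (∑ i ∈ G, s i j * s i k) ^ 2
      ≤ (Real.cosh (8 * ω ^ 2) - 1) / (G.card : ℝ) ^ 2 * (G.card * J.card * M) :=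
        mul_le_mul_of_nonneg_left h3 (by positivity)
    _ = (Real.cosh (8 * ω ^ 2) - 1) * (J.card * M / G.card) := by
        field_simp

end Pool.Agent.helper43.KG
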